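import Pool.Agent.H.MP_add580_gt.D

namespace Pool.Agent.H.MP_add580_gt
open scoped ContDiff

theorem sunada {G F : Type} [Group G] [Finite G] [AddCommGroup F] [Module ℝ F]
    (R : Representation ℝ G F) (V : Submodule ℝ F) (hV : ∀ g, ∀ f ∈ V, R g f ∈ V)
    {H K : Subgroup G} (e : H ≃ K) (he : ∀ h, ∃ x : G, (e h : G) = x * h * x⁻¹)
    {U U' : Submodule ℝ F} (hU : ∀ f, f ∈ U ↔ f ∈ V ∧ ∀ h ∈ H, R h f = f)
    (hU' : ∀ f, f ∈ U' ↔ f ∈ V ∧ ∀ h ∈ K, R h f = f) {n : ℕ} (hn : n ≤ Module.rank ℝ U) :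
    n ≤ Module.rank ℝ U' := by
  classical
  obtain ⟨v, hv⟩ := exists_linearIndependent_of_le_rank hn
  let W := Submodule.span ℝ (Set.range fun p : G × Fin n => R p.1 (v p.2))
  haveI : FiniteDimensional ℝ W := FiniteDimensional.span_of_finite ℝ (Set.finite_range _)
  have hW : ∀ g, W ≤ W.comap (R g) := fun g => Submodule.span_le.mpr (by
    rintro _ ⟨p, rfl⟩
    refine Submodule.subset_span ⟨(g * p.1, p.2), ?_⟩
    simp)
  have hWV : W ≤ V := Submodule.span_le.mpr (by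
    rintro _ ⟨p, rfl⟩
    exact hV _ _ ((hU _).mp (v p.2).2).1)
  let σ := R.subrepresentation W hW
  let σ1 : Representation ℝ H W := σ.comp H.subtype
  let σ2 : Representation ℝ K W := σ.comp K.subtype
  haveI := Fintype.ofFinite H
  haveI := Fintype.ofFinite K
  haveI : Invertible (Nat.card H : ℝ) := invertibleOfNonzero (by exact_mod_cast Nat.card_pos.ne')
  haveI : Invertible (Nat.card K : ℝ) := invertibleOfNonzero (by exact_mod_cast Nat.card_pos.ne')
  have h1 : Module.finrank ℝ σ1.invariants = Module.finrank ℝ σ2.invariants := by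
    have a1 := σ1.card_inv_mul_sum_char_eq_finrank
    have a2 := σ2.card_inv_mul_sum_char_eq_finrank
    rw [Nat.card_congr e, Fintype.sum_equiv e _ σ2.character fun h => by
      obtain ⟨x, hx⟩ := he h
      change σ.character h = σ.character (e h)
      rw [hx, Representation.char_conj], a2] at a1
    exact_mod_cast a1.symm
  have m (j : Fin n) : (v j : F) ∈ W := Submodule.subset_span ⟨(1, j), by simp⟩
  let w (j : Fin n) : σ1.invariants :=
    ⟨⟨v j, m j⟩, fun h => Subtype.ext (((hU _).mp (v j).2).2 h h.2)⟩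
  have hw : LinearIndependent ℝ w := LinearIndependent.of_comp (W.subtype ∘ₗ σ1.invariants.subtype)
    (hv.map' U.subtype U.ker_subtype)
  have h2 := hw.fintype_card_le_finrank
  rw [Fintype.card_fin, h1] at h2
  let L : σ2.invariants →ₗ[ℝ] U' := (W.subtype ∘ₗ σ2.invariants.subtype).codRestrict U' fun f =>
    (hU' _).mpr ⟨hWV f.1.2, fun h hh => congrArg Subtype.val (f.2 ⟨h, hh⟩)⟩
  have h3 := L.rank_le_of_injective fun a b h =>
    Subtype.ext (Subtype.ext (congrArg (Subtype.val : U' → F) h))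
  rw [← Module.finrank_eq_rank] at h3
  exact le_trans (by exact_mod_cast h2) h3

variable {E : Type} [NormedAddCommGroup E] [InnerProductSpace ℝ E] [FiniteDimensional ℝ E]

theorem lap_comp (f : E → ℝ) (g : E ≃ₗᵢ[ℝ] E) (x : E) :
    Laplacian.laplacian (f ∘ g) x = Laplacian.laplacian f (g x) := by
  rw [InnerProductSpace.laplacian_eq_iteratedFDeriv_stdOrthonormalBasis,
    InnerProductSpace.laplacian_eq_iteratedFDeriv_orthonormalBasis f
      ((stdOrthonormalBasis ℝ E).map g)]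
  refine Finset.sum_congr rfl fun i _ => ?_
  have := g.toContinuousLinearEquiv.iteratedFDerivWithin_comp_right f uniqueDiffOn_univ
    (Set.mem_univ (g x)) 2
  rw [Set.preimage_univ, iteratedFDerivWithin_univ, iteratedFDerivWithin_univ] at this
  erw [this]
  simp only [ContinuousMultilinearMap.compContinuousLinearMap_apply]
  congr 1
  ext j
  fin_cases j <;> rfl

/-- action on functions -/
def rep {G : Type} [Group G] (ρ : G →* (E ≃ₗᵢ[ℝ] E)) : Representation ℝ G (E → ℝ) where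
  toFun g := LinearMap.funLeft ℝ ℝ (ρ g⁻¹)
  map_one' := by ext; simp
  map_mul' _ _ := by ext; simp

theorem isospec {G : Type} [Group G] [Finite G] (ρ : G →* (E ≃ₗᵢ[ℝ] E)) {H K : Subgroup G}
    (e : H ≃ K) (he : ∀ h, ∃ x : G, (e h : G) = x * h * x⁻¹) (l : ℝ) :
    mult (H.map ρ) l = mult (K.map ρ) l := by
  have hV : ∀ g, ∀ f ∈ eig (⊥ : Subgroup (E ≃ₗᵢ[ℝ] E)) l, rep ρ g f ∈ eig ⊥ l := fun g f hf => by
    change f ∘ ρ g⁻¹ ∈ _
    refine ⟨hf.1.comp (ρ g⁻¹).contDiff.contDiffOn fun x hx => by simpa using hx,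
      by simpa using hf.2.1, fun c hc x => by simp [hf.2.2.1 c hc], fun a ha x => ?_, fun x hx => ?_⟩
    · rw [Subgroup.mem_bot.mp ha]; rfl
    · rw [lap_comp, hf.2.2.2.2 _ (by simpa using hx)]; rfl
  have hU : ∀ (H : Subgroup G) f, f ∈ eig (H.map ρ) l ↔ f ∈ eig ⊥ l ∧ ∀ h ∈ H, rep ρ h f = f :=
    fun H f => ⟨fun hf => ⟨⟨hf.1, hf.2.1, hf.2.2.1, fun a ha x => by
      rw [Subgroup.mem_bot.mp ha]; rfl, hf.2.2.2.2⟩, fun h hh => funext fun x =>
        hf.2.2.2.1 _ ⟨_, H.inv_mem hh, rfl⟩ x⟩, fun ⟨hf, h⟩ => ⟨hf.1, hf.2.1, hf.2.2.1, by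
      rintro _ ⟨a, ha, rfl⟩ x
      have := congrFun (h _ (H.inv_mem ha)) x
      change f (ρ a⁻¹⁻¹ x) = f x at this
      rwa [inv_inv] at this, hf.2.2.2.2⟩⟩
  refine ENat.eq_of_forall_natCast_le_iff fun n => ?_
  simp only [mult, Cardinal.natCast_le_toENat]
  refine ⟨sunada _ _ hV e he (hU H) (hU K), sunada _ _ hV e.symm (fun k => ?_) (hU K) (hU H)⟩
  obtain ⟨x, hx⟩ := he (e.symm k)
  rw [e.apply_symm_apply] at hx
  exact ⟨x⁻¹, by rw [hx]; group⟩

end Pool.Agent.H.MP_add580_gt
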