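import Pool.Agent.H.MP_add580_gt.A

namespace Pool.Agent.H.MP_add580_gt

abbrev I := ZMod 3 × ZMod 3

@[ext] structure Mo where
  σ : Equiv.Perm I
  c : I → ZMod 91
  b : ZMod 9

instance : Group Mo where
  mul g h := ⟨g.σ.trans h.σ, fun i => g.c i + h.c (g.σ i), g.b + h.b⟩
  one := ⟨Equiv.refl _, 0, 0⟩
  inv g := ⟨g.σ.symm, fun i => -g.c (g.σ.symm i), -g.b⟩
  mul_assoc g h k := Mo.ext rfl (funext fun _ => add_assoc _ _ _) (add_assoc _ _ _)
  one_mul g := Mo.ext rfl (funext fun _ => zero_add _) (zero_add _)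
  mul_one g := Mo.ext rfl (funext fun _ => add_zero _) (add_zero _)
  inv_mul_cancel g := Mo.ext (Equiv.symm_trans_self _) (funext fun _ => neg_add_cancel _)
    (neg_add_cancel _)

theorem mul_def (g h : Mo) :
    g * h = ⟨g.σ.trans h.σ, fun i => g.c i + h.c (g.σ i), g.b + h.b⟩ := rfl
theorem one_def : (1 : Mo) = ⟨Equiv.refl _, 0, 0⟩ := rfl

instance : Finite Mo := Finite.of_injective (fun g : Mo => (g.σ, g.c, g.b)) fun _ _ h =>
  Mo.ext (congrArg (·.1) h) (congrArg (·.2.1) h) (congrArg (·.2.2) h)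

noncomputable def ch (a : ZMod 91) (b : ZMod 9) : ℂ := (ZMod.toCircle a * ZMod.toCircle b : Circle)

theorem ch_add (a a' b b') : ch (a + a') (b + b') = ch a b * ch a' b' := by
  simp only [ch, AddChar.map_add_eq_mul, Circle.coe_mul]; ring

theorem ch_zero : ch 0 0 = 1 := by simp [ch]

theorem ch_norm (a b) : ‖ch a b‖ = 1 := Circle.norm_coe _

theorem ch_eq_one {a b} (h : ch a b = 1) : a = 0 ∧ b = 0 := by
  have h1 : (ZMod.toCircle a * ZMod.toCircle b : Circle) = 1 := Circle.ext h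
  have h2 := congrArg (· ^ 91) h1
  simp only [mul_pow, ← AddChar.map_nsmul_eq_pow, one_pow] at h2
  rw [show 91 • a = 0 by rw [nsmul_eq_mul]; exact mul_eq_zero_of_left rfl _,
    show 91 • b = b by rw [nsmul_eq_mul]; exact (congrArg (· * b) rfl).trans (one_mul b),
    AddChar.map_zero_eq_one, one_mul] at h2
  have hb : b = 0 := ZMod.injective_toCircle (by rw [h2, AddChar.map_zero_eq_one])
  rw [hb, AddChar.map_zero_eq_one, mul_one] at h1
  exact ⟨ZMod.injective_toCircle (by rw [h1, AddChar.map_zero_eq_one]), hb⟩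

abbrev E0 := EuclideanSpace ℂ I

noncomputable def act (g : Mo) : E0 →ₗ[ℝ] E0 where
  toFun x := WithLp.toLp 2 fun i => ch (g.c i) g.b * x (g.σ i)
  map_add' x y := by ext i; simp [mul_add]
  map_smul' r x := by ext i; simp; ring

theorem act_apply (g x i) : act g x i = ch (g.c i) g.b * x (g.σ i) := rfl

theorem act_mul (g h x) : act (g * h) x = act g (act h x) := by
  ext i; simp only [act_apply, mul_def, ch_add, mul_assoc]; rfl

theorem act_one (x) : act 1 x = x := by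
  ext i; simp [act_apply, one_def, ch_zero]

noncomputable def actE (g : Mo) : E0 ≃ₗᵢ[ℝ] E0 where
  toLinearMap := act g
  invFun := act g⁻¹
  left_inv x := by simp [← act_mul, act_one]
  right_inv x := by simp [← act_mul, act_one]
  norm_map' x := by
    rw [EuclideanSpace.norm_eq, EuclideanSpace.norm_eq, ← Equiv.sum_comp g.σ fun i => ‖x i‖ ^ 2]
    congr 1
    refine Finset.sum_congr rfl fun i _ => ?_
    change ‖act g x i‖ ^ 2 = _
    rw [act_apply, norm_mul, ch_norm, one_mul]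

abbrev E1 := EuclideanSpace ℝ (Fin (17 + 1))

noncomputable def φ : E0 ≃ₗᵢ[ℝ] E1 := ((stdOrthonormalBasis ℝ E0).reindex (finCongr (by
  rw [finrank_real_of_complex]; simp [I, ZMod.card]))).repr

noncomputable def ρ : Mo →* (E1 ≃ₗᵢ[ℝ] E1) where
  toFun g := φ.symm.trans ((actE g).trans φ)
  map_one' := by ext1 x; simp [actE, act_one]
  map_mul' g h := by ext1 x; simp [actE, act_mul]

theorem ρ_apply (g x) : ρ g (φ x) = φ (act g x) := by simp [ρ, actE]

def w (i : I) : ZMod 91 := 16 ^ i.1.val * 9 ^ i.2.val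

theorem w_add : ∀ i j, w (i + j) = w i * w j := by decide +kernel

theorem w_zero : w 0 = 1 := by decide

def pr : ZMod 9 →+* ZMod 3 := ZMod.castHom (by norm_num) _

def g (v : I) (u : ZMod 91 × ZMod 9) : Mo := ⟨Equiv.addRight (pr u.2 • v), fun i => u.1 * w i, u.2⟩

theorem g_mul (v s t s' t') : g v (s, t) * g v (s', t') = g v (s + s' * w (pr t • v), t + t') := by
  refine Mo.ext (Equiv.ext fun i => ?_) (funext fun i => ?_) rfl
  · simp [g, mul_def, add_smul, add_assoc]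
  · simp only [g, mul_def, Equiv.coe_addRight, w_add]; ring

theorem g_zero (v) : g v (0, 0) = 1 := by
  refine Mo.ext (Equiv.ext fun i => ?_) (funext fun i => ?_) rfl <;> simp [g, one_def]

theorem g_inj (v) : Function.Injective (g v) := fun u u' h => by
  have := congrFun (congrArg Mo.c h) 0
  simp only [g, w_zero, mul_one] at this
  exact Prod.ext this (congrArg Mo.b h)

theorem g_inv (v s t) : (g v (s, t))⁻¹ = g v (-s * w (-(pr t • v)), -t) := by
  refine inv_eq_of_mul_eq_one_right ?_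
  rw [g_mul, mul_assoc, ← w_add, neg_add_cancel, w_zero, ← g_zero v]
  simp

def Γ (v : I) : Subgroup Mo where
  carrier := Set.range (g v)
  one_mem' := ⟨_, g_zero v⟩
  mul_mem' := by
    rintro _ _ ⟨⟨s, t⟩, rfl⟩ ⟨⟨s', t'⟩, rfl⟩
    exact ⟨_, (g_mul ..).symm⟩
  inv_mem' := by
    rintro _ ⟨⟨s, t⟩, rfl⟩
    exact ⟨_, (g_inv ..).symm⟩

theorem free0 {v s t} {x : E0} (hx : x ≠ 0) (ht : pr t = 0) (h : act (g v (s, t)) x = x) :
    s = 0 ∧ t = 0 := by
  obtain ⟨i, hi⟩ : ∃ i, x i ≠ 0 := by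
    by_contra! c
    exact hx (by ext i; exact c i)
  have := congrArg (· i) h
  simp only [act_apply, g, ht, zero_smul, Equiv.coe_addRight, add_zero] at this
  obtain ⟨h1, h2⟩ := ch_eq_one ((mul_eq_right₀ hi).mp this)
  refine ⟨?_, h2⟩
  rw [← mul_one s, ← w_zero, ← add_neg_cancel i, w_add, ← mul_assoc, h1, zero_mul]

theorem key : ∀ v : I, v = (1, 0) ∨ v = (0, 1) → ∀ k : ZMod 3, k ≠ 0 →
    ∃ y, y * (1 - w (k • v)) = 1 := by decide +kernel

theorem pr3 : ∀ t, pr (t + (t + t)) = 0 ∧ (t + (t + t) = 0 → pr t = 0) := by decide +kernel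

theorem free {v u} {x : E0} (hx : x ≠ 0) (h : act (g v u) x = x) : g v u = 1 := by
  obtain ⟨s, t⟩ := u
  by_cases ht : pr t = 0
  · obtain ⟨rfl, rfl⟩ := free0 hx ht h
    exact g_zero v
  · have h3 : act (g v (s, t) * (g v (s, t) * g v (s, t))) x = x := by rw [act_mul, act_mul, h, h, h]
    rw [g_mul, g_mul] at h3
    exact (ht ((pr3 t).2 (free0 hx (pr3 t).1 h3).2)).elim

theorem spaceForm (v : I) : SpaceForm ((Γ v).map ρ) := by
  refine ⟨Finite.of_surjective _ (ρ.subgroupMap_surjective _), ?_⟩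
  rintro _ ⟨_, ⟨u, rfl⟩, rfl⟩ x hx h
  obtain ⟨x, rfl⟩ := φ.surjective x
  rw [ρ_apply] at h
  rw [free (by rintro rfl; simp at hx) (φ.injective h), map_one]

noncomputable def isoΓ (v : I) : Γ v ≃* (Γ v).map ρ :=
  MulEquiv.ofBijective (ρ.subgroupMap _) ⟨(injective_iff_map_eq_one _).mpr (by
    rintro ⟨_, u, rfl⟩ h
    have h1 : ρ (g v u) = 1 := congrArg Subtype.val h
    have h2 := ρ_apply (g v u) (EuclideanSpace.single 0 1)
    rw [h1] at h2
    exact Subtype.ext (free (by simp) (φ.injective h2).symm)), ρ.subgroupMap_surjective _⟩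

theorem conj0 {v} (hv : v = (1, 0) ∨ v = (0, 1)) (s) {t} (ht : pr t ≠ 0) :
    IsConj (g v (0, t)) (g v (s, t)) := by
  obtain ⟨y, hy⟩ := key v hv _ ht
  refine isConj_iff.mpr ⟨g v (s * y, 0), ?_⟩
  rw [mul_inv_eq_iff_eq_mul, g_mul, g_mul]
  congr 2
  · rw [zero_mul, add_zero]; linear_combination s * hy
  · simp

theorem conj1 (u) : IsConj (g (1, 0) u) (g (0, 1) u) := by
  obtain ⟨s, t⟩ := u
  by_cases ht : pr t = 0
  · have : g (1, 0) (s, t) = g (0, 1) (s, t) := by simp [g, ht]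
    rw [this]
  · refine ((conj0 (.inl rfl) s ht).symm.trans ?_).trans (conj0 (.inr rfl) s ht)
    refine isConj_iff.mpr ⟨⟨Equiv.prodComm _ _, 0, 0⟩, ?_⟩
    rw [mul_inv_eq_iff_eq_mul]
    refine Mo.ext (Equiv.ext fun i => ?_) (funext fun i => ?_) ?_ <;> simp [g, mul_def]

theorem iso_spec (l : ℝ) : mult ((Γ (1, 0)).map ρ) l = mult ((Γ (0, 1)).map ρ) l := by
  refine isospec ρ ((Equiv.ofInjective _ (g_inj _)).symm.trans (Equiv.ofInjective _ (g_inj _))) ?_ l
  rintro ⟨_, u, rfl⟩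
  obtain ⟨x, hx⟩ := isConj_iff.mp (conj1 u)
  refine ⟨x, Eq.trans ?_ hx.symm⟩
  have := (Equiv.ofInjective _ (g_inj (1, 0))).symm_apply_apply u
  exact congrArg (g (0, 1)) this

theorem g_pow (v s) (n : ℕ) : g v (s, 0) ^ n = g v (n * s, 0) := by
  induction n with
  | zero => simp [g_zero]
  | succ n ih => rw [pow_succ, ih, g_mul]; simp [w_zero, add_mul]

theorem b_pow (x : Mo) (n : ℕ) : (x ^ n).b = n * x.b := by
  induction n with
  | zero => simp [one_def]
  | succ n ih => rw [pow_succ, mul_def]; simp [ih, add_mul]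

theorem arith : ∀ (s : ZMod 91) (k : ZMod 3), s * w (k • ((0, 1) : I)) = (16 : ℕ) * s →
    (7 : ℕ) * s = 0 ∨ (13 : ℕ) * s = 0 := by decide +kernel

theorem not_iso : IsEmpty (Γ (1, 0) ≃* Γ (0, 1)) := ⟨fun e => by
  let x : Γ (1, 0) := ⟨_, (1, 0), rfl⟩
  let y : Γ (1, 0) := ⟨_, (0, 1), rfl⟩
  have h1 : x ^ 91 = 1 := Subtype.ext ((g_pow _ _ _).trans ((congrArg _ (by decide)).trans (g_zero _)))
  have h2 : x ^ 7 ≠ 1 := fun h => absurd (g_inj _ (((g_pow _ _ _).symm.trans
    (congrArg Subtype.val h)).trans (g_zero _).symm)) (by decide)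
  have h3 : x ^ 13 ≠ 1 := fun h => absurd (g_inj _ (((g_pow _ _ _).symm.trans
    (congrArg Subtype.val h)).trans (g_zero _).symm)) (by decide)
  have h4 : y * x = x ^ 16 * y := Subtype.ext (by
    change g _ _ * g _ _ = g _ _ ^ 16 * g _ _
    rw [g_pow, g_mul, g_mul]; congr 1)
  rw [← e.map_eq_one_iff, map_pow] at h1
  rw [Ne, ← e.map_eq_one_iff, map_pow] at h2 h3
  have h5 := congrArg e h4
  rw [map_mul, map_mul, map_pow] at h5
  generalize e x = X at *
  generalize e y = Y at *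
  obtain ⟨_, ⟨s, t⟩, rfl⟩ := X
  obtain ⟨_, ⟨s', t'⟩, rfl⟩ := Y
  have ht : t = 0 := by
    have := (b_pow _ _).symm.trans (congrArg (fun z : Γ (0, 1) => z.1.b) h1)
    exact (one_mul t).symm.trans this
  subst ht
  have h6 : g _ _ * g _ _ = g _ _ ^ 16 * g _ _ := congrArg Subtype.val h5
  rw [g_pow, g_mul, g_mul] at h6
  have h7 := congrArg Prod.fst (g_inj _ h6)
  simp only [map_zero, zero_smul, w_zero, mul_one] at h7
  rcases arith s (pr t') (by linear_combination h7) with h | h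
  · exact h2 (Subtype.ext ((g_pow _ _ _).trans (h ▸ g_zero _)))
  · exact h3 (Subtype.ext ((g_pow _ _ _).trans (h ▸ g_zero _)))⟩

end Pool.Agent.H.MP_add580_gt
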