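import Mathlib

namespace Pool.Agent.H.MP_add580_gt
open scoped ContDiff

variable {E : Type} [NormedAddCommGroup E] [InnerProductSpace ℝ E] [FiniteDimensional ℝ E]

/-- `f` is invariant under `Γ`. -/
def Inv (Γ : Subgroup (E ≃ₗᵢ[ℝ] E)) (f : E → ℝ) : Prop := ∀ g ∈ Γ, ∀ x, f (g x) = f x

/-- Eigenfunctions of the Laplace-Beltrami operator of `S/Γ` with eigenvalue `l`, seen as
`Γ`-invariant smooth functions on `E \ {0}` that are constant on rays. -/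
def eig (Γ : Subgroup (E ≃ₗᵢ[ℝ] E)) (l : ℝ) : Submodule ℝ (E → ℝ) where
  carrier := {f | ContDiffOn ℝ ∞ f {0}ᶜ ∧ f 0 = 0 ∧ (∀ c : ℝ, 0 < c → ∀ x, f (c • x) = f x) ∧
    Inv Γ f ∧ ∀ x, ‖x‖ = 1 → Laplacian.laplacian f x = -l * f x}
  zero_mem' := ⟨contDiffOn_const, rfl, fun _ _ _ => rfl, fun _ _ _ => rfl, fun x _ => by
    rw [show (0 : E → ℝ) = fun _ => 0 from rfl, InnerProductSpace.laplacian_const]; simp⟩
  add_mem' := fun {f g} hf hg => ⟨hf.1.add hg.1, by simp [hf.2.1, hg.2.1],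
    fun c hc x => by simp [hf.2.2.1 c hc, hg.2.2.1 c hc],
    fun a ha x => by simp [hf.2.2.2.1 a ha, hg.2.2.2.1 a ha], fun x hx => by
      have h : ({0}ᶜ : Set E) ∈ nhds x := isOpen_compl_singleton.mem_nhds (by rintro rfl; simp at hx)
      rw [ContDiffAt.laplacian_add ((hf.1.contDiffAt h).of_le (by norm_cast))
        ((hg.1.contDiffAt h).of_le (by norm_cast)), hf.2.2.2.2 x hx, hg.2.2.2.2 x hx,
        Pi.add_apply, mul_add]⟩
  smul_mem' := fun a f hf => ⟨hf.1.const_smul a, by simp [hf.2.1],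
    fun c hc x => by simp [hf.2.2.1 c hc], fun a ha x => by simp [hf.2.2.2.1 a ha], fun x hx => by
      have h : ({0}ᶜ : Set E) ∈ nhds x := isOpen_compl_singleton.mem_nhds (by rintro rfl; simp at hx)
      rw [InnerProductSpace.laplacian_smul a ((hf.1.contDiffAt h).of_le (by norm_cast)),
        hf.2.2.2.2 x hx]
      simp only [smul_eq_mul, Pi.smul_apply]; ring⟩

/-- Multiplicity of `l` in the spectrum of `S/Γ`. -/
noncomputable def mult (Γ : Subgroup (E ≃ₗᵢ[ℝ] E)) (l : ℝ) : ℕ∞ := (Module.rank ℝ (eig Γ l)).toENat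

/-- `Γ` is finite and acts freely on the unit sphere. -/
def SpaceForm (Γ : Subgroup (E ≃ₗᵢ[ℝ] E)) : Prop :=
  Finite Γ ∧ ∀ g ∈ Γ, ∀ x, ‖x‖ = 1 → g x = x → g = 1

/-- The two groups are not isomorphic. -/
def NonIso (Γ₁ Γ₂ : Subgroup (E ≃ₗᵢ[ℝ] E)) : Prop := IsEmpty (Γ₁ ≃* Γ₂)

variable (E) in
/-- The unit sphere of `E` covers two isospectral space forms with non-isomorphic groups. -/
def Pair : Prop := ∃ Γ₁ Γ₂ : Subgroup (E ≃ₗᵢ[ℝ] E),
  SpaceForm Γ₁ ∧ SpaceForm Γ₂ ∧ (∀ l : ℝ, mult Γ₁ l = mult Γ₂ l) ∧ NonIso Γ₁ Γ₂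

end Pool.Agent.H.MP_add580_gt
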